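import Mathlib
import Pool.Agent.Q100.SL.Stm

set_option autoImplicit false

/-! # Project SL: job ADF -/

open Finset

namespace Pool.Agent.Q261.SL

open Q100.SL

lemma sg_sum (a : ℝ) (θ : Bool) : ∑ b, sg a θ b = 1 := by
  cases θ <;> simp [sg]

/-- marginal in one of the bits -/
lemma marg_u (a : ℝ) (θ : Bool) {m : ℕ} (k : Fin m) (G : Bool → ℝ) :
    ∑ u : Fin m → Bool, (∏ i, sg a θ (u i)) * G (u k) = ∑ b, sg a θ b * G b := by
  have h1 : ∀ u : Fin m → Bool, (∏ i, sg a θ (u i)) * G (u k) =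
      ∏ i, (sg a θ (u i) * if i = k then G (u i) else 1) := by
    intro u
    rw [Finset.prod_mul_distrib, Finset.prod_ite_eq' univ k fun i => G (u i), if_pos (Finset.mem_univ k)]
  have h2 := Finset.prod_univ_sum (fun _ : Fin m => (univ : Finset Bool))
    (fun i b => sg a θ b * if i = k then G b else 1)
  rw [Fintype.piFinset_univ] at h2
  rw [Finset.sum_congr rfl fun u _ => h1 u, ← h2]
  have h3 : ∀ i : Fin m, ∑ b, (sg a θ b * if i = k then G b else 1) = if i = k then ∑ b, sg a θ b * G b else 1 := by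
    intro i
    by_cases h : i = k
    · simp only [if_pos h]
    · simp only [if_neg h, mul_one]
      exact sg_sum a θ
  rw [Finset.prod_congr rfl fun i _ => h3 i, Finset.prod_ite_eq' univ k fun _ => ∑ b, sg a θ b * G b,
    if_pos (Finset.mem_univ k)]

/-- marginal in the hidden bits -/
lemma marg_c (R a : ℝ) (θ : Bool) {m : ℕ} (k : Fin m) (G : Bool → ℝ) :
    ∑ ω : Oc m, Wc R a m θ ω * G (ω.2.2 k) = ∑ b, sg a θ b * G b := by
  unfold Oc Wc
  rw [Fintype.sum_prod_type]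
  have h1 : ∀ x : Bool, ∑ y : Bool × (Fin m → Bool), sg R θ (x, y).1 * sg R θ (x, y).2.1 *
      (∏ i, sg a θ ((x, y).2.2 i)) * G ((x, y).2.2 k) = sg R θ x * ∑ b, sg a θ b * G b := by
    intro x
    rw [Fintype.sum_prod_type]
    have h2 : ∀ z : Bool, ∑ u : Fin m → Bool, sg R θ (x, (z, u)).1 * sg R θ (x, (z, u)).2.1 *
        (∏ i, sg a θ ((x, (z, u)).2.2 i)) * G ((x, (z, u)).2.2 k) = sg R θ x * sg R θ z * ∑ b, sg a θ b * G b := by
      intro z
      rw [← marg_u a θ k G, Finset.mul_sum]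
      exact Finset.sum_congr rfl fun u _ => by ring
    rw [Finset.sum_congr rfl fun z _ => h2 z, ← Finset.sum_mul, ← Finset.mul_sum, sg_sum, mul_one]
  rw [Finset.sum_congr rfl fun x _ => h1 x, ← Finset.sum_mul, sg_sum, one_mul]

lemma wt_eq {P R a : ℝ} {m : ℕ} {Ω : Type} [Fintype Ω] {W : Bool → Ω → ℝ} {V₀ V₁ : Ω → Bool}
    (hV : MargV P W V₀ V₁) {ι : Type} {X : ι → Ω × Oc m → Bool} {i₀ i₁ i₂ : ι} {k : Fin m}
    (h0 : ∀ ω, X i₀ ω = V₀ ω.1) (h1 : ∀ ω, X i₁ ω = V₁ ω.1) (h2 : ∀ ω, X i₂ ω = ω.2.2.2 k) (θ : Bool)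
    (y : Fin 3 → Bool) : wt (Wx W R a m) X ![i₀, i₁, i₂] θ y =
      sg P θ (y 0) * sg P θ (y 1) * sg a θ (y 2) := by
  have h3 : wt (Wx W R a m) X ![i₀, i₁, i₂] θ y = ∑ ω : Ω × Oc m,
      (W θ ω.1 * (if V₀ ω.1 = y 0 ∧ V₁ ω.1 = y 1 then 1 else 0)) *
        (Wc R a m θ ω.2 * (if ω.2.2.2 k = y 2 then 1 else 0)) := by
    unfold wt
    refine Finset.sum_congr rfl fun ω _ => ?_
    have e : (∀ k, X (![i₀, i₁, i₂] k) ω = y k) ↔ (V₀ ω.1 = y 0 ∧ V₁ ω.1 = y 1) ∧ ω.2.2.2 k = y 2 := by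
      rw [← h0 ω, ← h1 ω, ← h2 ω]
      constructor
      · intro h
        exact ⟨⟨h 0, h 1⟩, h 2⟩
      · rintro ⟨⟨a0, a1⟩, a2⟩ j
        fin_cases j
        · exact a0
        · exact a1
        · exact a2
    unfold Wx
    by_cases hA : V₀ ω.1 = y 0 ∧ V₁ ω.1 = y 1
    · by_cases hB : ω.2.2.2 k = y 2
      · rw [if_pos (e.2 ⟨hA, hB⟩), if_pos hA, if_pos hB, mul_one, mul_one]
      · rw [if_neg (fun h => hB (e.1 h).2), if_neg hB, mul_zero, mul_zero]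
    · rw [if_neg (fun h => hA (e.1 h).1), if_neg hA, mul_zero, zero_mul]
  rw [h3, Fintype.sum_prod_type]
  have h4 : ∀ x : Ω, ∑ c : Oc m, (W θ (x, c).1 * (if V₀ (x, c).1 = y 0 ∧ V₁ (x, c).1 = y 1 then 1 else 0)) *
        (Wc R a m θ (x, c).2 * (if (x, c).2.2.2 k = y 2 then 1 else 0)) =
      (W θ x * (if V₀ x = y 0 ∧ V₁ x = y 1 then 1 else 0)) * sg a θ (y 2) := by
    intro x
    show ∑ c : Oc m, (W θ x * (if V₀ x = y 0 ∧ V₁ x = y 1 then 1 else 0)) *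
        (Wc R a m θ c * (if c.2.2 k = y 2 then 1 else 0)) = _
    rw [← Finset.mul_sum]
    congr 1
    have h5 := marg_c R a θ k (m := m) fun b => if b = y 2 then (1 : ℝ) else 0
    rw [h5]
    simp
  rw [Finset.sum_congr rfl fun x _ => h4 x, ← Finset.sum_mul]
  congr 1
  have h6 := hV θ fun b c => if b = y 0 ∧ c = y 1 then (1 : ℝ) else 0
  rw [h6]
  generalize y 0 = s
  generalize y 1 = t
  cases s <;> cases t <;> simp

theorem admf : S_admf := by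
  intro p P R a m hPar Ω _ W V₀ V₁ hV ι X i₀ i₁ i₂ k h0 h1 h2
  refine ⟨Fin 3, inferInstance, ![i₀, i₁, i₂], fun y => rr (y 0) (y 1) (y 2), ?_, ?_, ?_, ?_⟩
  · intro ω
    show rr (V₀ ω.1) (V₁ ω.1) (ω.2.2.2 k) = rr (X i₀ ω) (X i₁ ω) (X i₂ ω)
    rw [h0, h1, h2]
  · intro b
    exact if_pos rfl
  all_goals
    have hp := hPar.hp
    have hp1 := hPar.hp1
    have ha := hPar.ha
    have ha1 := hPar.ha1
    have hR := hPar.hR
    have hR1 := hPar.hR1
    have hP := hPar.hP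
    have hP1 := hPar.hP1
    have c1 := hPar.c1
    have c3 := hPar.c3
    have hq : 0 ≤ (1 - p) ^ 2 := sq_nonneg _
    have hPP : (1 - P) ^ 2 ≤ P ^ 2 := by nlinarith
    have hRR : (1 - R) ^ 2 ≤ R ^ 2 := by nlinarith
    have hP2 : 0 ≤ P * (1 - P) := by nlinarith
    have k1 : p ^ 2 * ((1 - P) ^ 2 * (1 - a)) ≤ (1 - p) ^ 2 * (P ^ 2 * a) := by
      have e1 : p ^ 2 * (1 - a) * (1 - P) ^ 2 ≤ (1 - p) ^ 2 * a * (1 - P) ^ 2 :=
        mul_le_mul_of_nonneg_right c1 (sq_nonneg _)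
      have e2 : (1 - p) ^ 2 * a * (1 - P) ^ 2 ≤ (1 - p) ^ 2 * a * P ^ 2 :=
        mul_le_mul_of_nonneg_left hPP (mul_nonneg hq (by linarith))
      linarith
    have k2 : p ^ 2 * ((1 - P) ^ 2 * a) ≤ (1 - p) ^ 2 * (P ^ 2 * (1 - a)) := by
      have hB : 0 ≤ (1 - p) ^ 2 * (P ^ 2 * (1 - a)) := mul_nonneg hq (mul_nonneg (sq_nonneg _) (by linarith))
      have e1 : (p ^ 2 * ((1 - P) ^ 2 * a)) * R ^ 2 ≤ ((1 - p) ^ 2 * (P ^ 2 * (1 - a))) * R ^ 2 := by
        calc (p ^ 2 * ((1 - P) ^ 2 * a)) * R ^ 2 = p ^ 2 * ((1 - P) ^ 2 * a * R ^ 2) := by ring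
          _ ≤ _ := c3
          _ = ((1 - p) ^ 2 * (P ^ 2 * (1 - a))) * (1 - R) ^ 2 := by ring
          _ ≤ _ := mul_le_mul_of_nonneg_left hRR hB
      exact le_of_mul_le_mul_right e1 (by positivity)
    have k3 : p ^ 2 * (P * (1 - P) * (1 - a)) ≤ (1 - p) ^ 2 * (P * (1 - P) * a) := by
      have e1 := mul_le_mul_of_nonneg_right c1 hP2
      linarith
  · intro y hy
    rw [wt_eq hV h0 h1 h2, wt_eq hV h0 h1 h2]
    revert hy
    show rr (y 0) (y 1) (y 2) = true → _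
    generalize y 0 = s
    generalize y 1 = t
    generalize y 2 = r
    cases s <;> cases t <;> cases r <;> simp [rr, sg] <;> nlinarith
  · intro y hy
    rw [wt_eq hV h0 h1 h2, wt_eq hV h0 h1 h2]
    revert hy
    show rr (y 0) (y 1) (y 2) = false → _
    generalize y 0 = s
    generalize y 1 = t
    generalize y 2 = r
    cases s <;> cases t <;> cases r <;> simp [rr, sg] <;> nlinarith

end Pool.Agent.Q261.SL
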